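import Pool.Agent.Y910.F.Defs

/-! Project FC (helper910): generic weights (job FC-GEN). -/

set_option autoImplicit false

namespace Pool.Agent.Y876.FC

open Polynomial Finset Pool.Agent.Y910.F

/-- the sign -/
def eps (b : Bool) : ℂ := if b then 1 else -1

theorem eps_ne (b : Bool) : eps b ≠ 0 := by
  unfold eps
  cases b <;> simp

/-- the polynomial in `m` -/
noncomputable def Pl {d : ℕ} (θ v : Fin d → ℂ) (η : Fin d → Bool) (J : Finset (Fin d)) : ℂ[X] :=
  ∑ l ∈ range d, C (∑ i ∈ J, eps (η i) * v i * θ i ^ l) * X ^ l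

theorem Pl_eval {d : ℕ} (θ v : Fin d → ℂ) (η : Fin d → Bool) (J : Finset (Fin d)) (m : ℕ) :
    (Pl θ v η J).eval (m : ℂ) = ∑ i ∈ J, eps (η i) * v i * wt d m (θ i) := by
  unfold Pl wt
  rw [eval_finset_sum]
  simp only [eval_mul, eval_C, eval_pow, eval_X]
  simp only [Finset.sum_mul, Finset.mul_sum]
  rw [Finset.sum_comm]
  refine Finset.sum_congr rfl fun i _ => Finset.sum_congr rfl fun l _ => ?_
  ring

theorem Pl_natDegree {d : ℕ} (θ v : Fin d → ℂ) (η : Fin d → Bool) (J : Finset (Fin d)) :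
    (Pl θ v η J).natDegree ≤ d := by
  unfold Pl
  refine natDegree_sum_le_of_forall_le _ _ fun l hl => ?_
  exact (natDegree_C_mul_X_pow_le _ _).trans (Finset.mem_range.1 hl).le

theorem Pl_coeff {d : ℕ} (θ v : Fin d → ℂ) (η : Fin d → Bool) (J : Finset (Fin d)) {l : ℕ}
    (hl : l < d) : (Pl θ v η J).coeff l = ∑ i ∈ J, eps (η i) * v i * θ i ^ l := by
  unfold Pl
  rw [finset_sum_coeff]
  simp only [coeff_C_mul, coeff_X_pow]
  rw [Finset.sum_eq_single l]
  · simp
  · intro b _ hb
    rw [if_neg (fun h => hb h.symm), mul_zero]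
  · intro h
    exact absurd (Finset.mem_range.2 hl) h

theorem Pl_ne {d : ℕ} {θ v : Fin d → ℂ} (hθ : Function.Injective θ) (hv : ∀ i, v i ≠ 0)
    (η : Fin d → Bool) {J : Finset (Fin d)} (hJ : J.Nonempty) : Pl θ v η J ≠ 0 := by
  intro h
  have h1 : (fun i => if i ∈ J then eps (η i) * v i else 0) = (0 : Fin d → ℂ) := by
    refine Matrix.eq_zero_of_forall_pow_sum_mul_pow_eq_zero hθ fun l => ?_
    have h2 := Pl_coeff θ v η J l.2
    rw [h, coeff_zero] at h2
    refine Eq.trans ?_ h2.symm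
    simp only [ite_mul, zero_mul]
    rw [← Finset.sum_filter]
    simp
  obtain ⟨i, hi⟩ := hJ
  have h3 := congrFun h1 i
  simp only [hi, if_true, Pi.zero_apply, mul_eq_zero] at h3
  rcases h3 with h3 | h3
  · exact eps_ne _ h3
  · exact hv i h3

theorem done : StGEN := by
  classical
  intro d i0 i1 i2 h01 h02 h12
  refine ⟨Fintype.card ((Fin d → Bool) × Finset (Fin d)) * d, fun θ v hθ hv => ?_⟩
  set M0 := Fintype.card ((Fin d → Bool) × Finset (Fin d)) * d with hM0
  set S : Finset ((Fin d → Bool) × Finset (Fin d)) := univ.filter (fun x => x.2.Nonempty) with hS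
  set Q : ℂ[X] := ∏ x ∈ S, Pl θ v x.1 x.2 with hQ
  have hQ0 : Q ≠ 0 := by
    rw [hQ, Finset.prod_ne_zero_iff]
    intro x hx
    exact Pl_ne hθ hv _ (Finset.mem_filter.1 hx).2
  have hdeg : Q.natDegree ≤ M0 := by
    rw [hQ, hM0]
    refine (natDegree_prod_le _ _).trans ?_
    refine (Finset.sum_le_card_nsmul S _ d fun x _ => Pl_natDegree θ v x.1 x.2).trans ?_
    rw [smul_eq_mul]
    exact Nat.mul_le_mul_right d (Finset.card_le_univ S)
  obtain ⟨m, hm, hmQ⟩ : ∃ m : ℕ, m ≤ M0 ∧ Q.eval (m : ℂ) ≠ 0 := by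
    by_contra hcon
    push Not at hcon
    refine hQ0 (eq_zero_of_natDegree_lt_card_of_eval_eq_zero Q
      (f := fun i : Fin (M0 + 1) => ((i : ℕ) : ℂ)) (fun a b hab => ?_)
      (fun i => hcon _ (Nat.lt_succ_iff.1 i.2)) ?_)
    · exact Fin.ext (Nat.cast_injective hab)
    · rw [Fintype.card_fin]
      omega
  have hE : ∀ (η : Fin d → Bool) (J : Finset (Fin d)), J.Nonempty →
      ∑ i ∈ J, eps (η i) * v i * wt d m (θ i) ≠ 0 := by
    intro η J hJ
    rw [← Pl_eval]
    rw [hQ, eval_prod, Finset.prod_ne_zero_iff] at hmQ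
    exact hmQ (η, J) (Finset.mem_filter.2 ⟨Finset.mem_univ _, hJ⟩)
  have hwt : ∀ i, wt d m (θ i) ≠ 0 := by
    intro i h
    refine hE (fun _ => true) {i} (Finset.singleton_nonempty i) ?_
    rw [Finset.sum_singleton, h, mul_zero]
  -- all the partial sums do not vanish
  have key : ∀ c : Fin d → ℂ, (∀ i, c i ^ 2 = (wt d m (θ i) * v i) ^ 2) →
      ∀ J : Finset (Fin d), J.Nonempty → ∑ i ∈ J, c i ≠ 0 := by
    intro c hc J hJ
    have h1 : ∀ i, c i = eps (decide (c i = wt d m (θ i) * v i)) * v i * wt d m (θ i) := by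
      intro i
      by_cases h : c i = wt d m (θ i) * v i
      · rw [decide_eq_true h]
        simp only [eps, if_true]
        rw [h]
        ring
      · have h2 : c i = -(wt d m (θ i) * v i) := (sq_eq_sq_iff_eq_or_eq_neg.1 (hc i)).resolve_left h
        rw [decide_eq_false h]
        simp only [eps, Bool.false_eq_true, if_false]
        rw [h2]
        ring
    have h3 := hE (fun i => decide (c i = wt d m (θ i) * v i)) J hJ
    have h4 : ∑ i ∈ J, c i =
        ∑ i ∈ J, eps (decide (c i = wt d m (θ i) * v i)) * v i * wt d m (θ i) :=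
      Finset.sum_congr rfl fun i _ => h1 i
    rw [h4]
    exact h3
  refine ⟨m, hm, hwt, fun c hc => ?_⟩
  have k0 : c i0 ≠ 0 := by
    have := key c hc {i0} (Finset.singleton_nonempty _)
    rwa [Finset.sum_singleton] at this
  have k1 : c i1 ≠ 0 := by
    have := key c hc {i1} (Finset.singleton_nonempty _)
    rwa [Finset.sum_singleton] at this
  have e0 : ∑ i ∈ univ.erase i0, c i = ∑ i, c i - c i0 := by
    rw [← Finset.add_sum_erase univ c (Finset.mem_univ i0)]
    ring
  have e1 : ∑ i ∈ univ.erase i1, c i = ∑ i, c i - c i1 := by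
    rw [← Finset.add_sum_erase univ c (Finset.mem_univ i1)]
    ring
  have e01 : ∑ i ∈ (univ.erase i0).erase i1, c i = ∑ i, c i - c i0 - c i1 := by
    rw [← e0, ← Finset.add_sum_erase (univ.erase i0) c
      (Finset.mem_erase.2 ⟨h01.symm, Finset.mem_univ i1⟩)]
    ring
  have n0 : ∑ i, c i - c i0 ≠ 0 := by
    rw [← e0]
    exact key c hc _ ⟨i1, Finset.mem_erase.2 ⟨h01.symm, Finset.mem_univ _⟩⟩
  have n1 : ∑ i, c i - c i1 ≠ 0 := by
    rw [← e1]
    exact key c hc _ ⟨i0, Finset.mem_erase.2 ⟨h01, Finset.mem_univ _⟩⟩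
  have n01 : ∑ i, c i - c i0 - c i1 ≠ 0 := by
    rw [← e01]
    exact key c hc _ ⟨i2, Finset.mem_erase.2 ⟨h12.symm, Finset.mem_erase.2
      ⟨h02.symm, Finset.mem_univ _⟩⟩⟩
  have nd : c i1 - c i0 ≠ 0 := by
    have h5 := key (Function.update c i0 (-c i0)) (fun i => by
      by_cases h : i = i0
      · rw [h, Function.update_self, neg_sq, hc]
      · rw [Function.update_of_ne h, hc]) {i0, i1} ⟨i0, Finset.mem_insert_self _ _⟩
    rw [Finset.sum_pair h01, Function.update_self, Function.update_of_ne h01.symm] at h5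
    intro h6
    exact h5 (by linear_combination h6)
  refine ⟨fun h => ?_, fun h => ?_, fun h => ?_⟩
  · have : c i0 * (∑ i, c i - c i0) = 0 := by linear_combination h / 4
    exact (mul_ne_zero k0 n0) this
  · have : c i1 * (∑ i, c i - c i1) = 0 := by linear_combination h / 4
    exact (mul_ne_zero k1 n1) this
  · have : (c i1 - c i0) * (∑ i, c i - c i0 - c i1) = 0 := by linear_combination h / 4
    exact (mul_ne_zero nd n01) this

end Pool.Agent.Y876.FC
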